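import Pool.Agent.Helper50.Tm.Defs
import Pool.Agent.Helper50.Tm.All

/-!
# Split reduction after large tame extensions, for tame potentially semi-abelian reduction

`K` is a complete discretely valued field with algebraically closed residue field of
characteristic exponent `p`, `N / K` a finite Galois extension of degree prime to `p` and `L`, `M`
are intermediate fields with `[L : K] ≤ [M : K]`. Every commutative group scheme `X` over `K` which
behaves over `L` like a semi-abelian variety with semi-abelian reduction has split reduction over
`M`.
-/

set_option autoImplicit false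

open CategoryTheory AlgebraicGeometry Limits TensorProduct MonoidalCategory

namespace Pool.Agent.Results.MP_f619a5_ag.TameSemiabelian

open Pool.Agent.Helper50.Tm

/-- `O` is a complete discrete valuation ring with fraction field `K` and algebraically closed
residue field of characteristic exponent `p`; `N / K` is a finite Galois extension of degree prime
to `p`, so it is tamely ramified; `L` and `M` are intermediate fields, `[L : K] ≤ [M : K]`, and
`RL`, `RM`, `RN` are the valuation rings of `L`, `M`, `N`. `X` is a commutative group scheme over
`K` with Neron lft models `𝒢L`, `𝒢M`, `𝒢N` over these rings.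
Hypotheses `hD`, `hT`, `hH` (they hold if `X` is a semi-abelian variety with semi-abelian
reduction over `L`): the group of rational points of the identity component of the special fibre
of `𝒢N` is `p`-divisible; a point of `X` over `L` which reduces to the unit in the special fibre
of `𝒢N` reduces to the unit in the special fibre of `𝒢L`; every rational point of `p`-power order
of the special fibre of `𝒢N` is the reduction of a point of `X` over `L`. The group of components
of the special fibre of `𝒢M` is finitely generated (`hF`).
Then `X` has split reduction over `M`. -/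
theorem result (O K N : Type) [CommRing O] [IsDomain O] [IsDiscreteValuationRing O]
    [IsAdicComplete (IsLocalRing.maximalIdeal O) O] [IsAlgClosed (IsLocalRing.ResidueField O)]
    [Field K] [Algebra O K] [IsFractionRing O K]
    [Field N] [Algebra K N] [Algebra O N] [IsScalarTower O K N]
    [FiniteDimensional K N] [IsGalois K N] (L M : IntermediateField K N)
    (RL RM RN : Type)
    [CommRing RL] [IsDomain RL] [IsDiscreteValuationRing RL] [Algebra O RL] [Algebra RL L]
    [IsScalarTower O RL L] [IsIntegralClosure RL O L]
    [CommRing RM] [IsDomain RM] [IsDiscreteValuationRing RM] [Algebra O RM] [Algebra RM M]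
    [IsScalarTower O RM M] [IsIntegralClosure RM O M]
    [CommRing RN] [IsDomain RN] [IsDiscreteValuationRing RN] [Algebra O RN] [Algebra RN N]
    [IsScalarTower O RN N] [IsIntegralClosure RN O N]
    (X : Over (Spec (CommRingCat.of K))) [GrpObj X] [IsCommMonObj X]
    (𝒢L : NeronModel K RL L X) (𝒢M : NeronModel K RM M X) (𝒢N : NeronModel K RN N X)
    (htame : (ringExpChar (IsLocalRing.ResidueField O)).Coprime (Module.finrank K N))
    (hdeg : Module.finrank K L ≤ Module.finrank K M)
    (hD : ∀ b : Pts 𝒢N.G (IsLocalRing.ResidueField RN), SameCompk 1 b →
      ∃ b' : Pts 𝒢N.G (IsLocalRing.ResidueField RN), SameCompk 1 b' ∧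
        b' ^ ringExpChar (IsLocalRing.ResidueField O) = b)
    (hT : ∀ (y : Pts X L) (s : Pts 𝒢L.G RL) (t : Pts 𝒢N.G RN), 𝒢L.Extends y s →
      𝒢N.Extends (y.map (IsScalarTower.toAlgHom K L N)) t →
      t.map (Algebra.ofId RN (IsLocalRing.ResidueField RN)) = 1 →
      s.map (Algebra.ofId RL (IsLocalRing.ResidueField RL)) = 1)
    (hH : ∀ (b : Pts 𝒢N.G (IsLocalRing.ResidueField RN)) (j : ℕ),
      b ^ (ringExpChar (IsLocalRing.ResidueField O)) ^ j = 1 →
      ∃ (y : Pts X L) (t : Pts 𝒢N.G RN),
        𝒢N.Extends (y.map (IsScalarTower.toAlgHom K L N)) t ∧
        t.map (Algebra.ofId RN (IsLocalRing.ResidueField RN)) = b)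
    (hF : FGComponents 𝒢M.G) :
    SplitReduction 𝒢M.G :=
  main_all O K N L M RL RM RN X 𝒢L 𝒢M 𝒢N htame hdeg hD hT hH hF

end Pool.Agent.Results.MP_f619a5_ag.TameSemiabelian
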