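import Pool.Agent.Helper40.Nm.Defs
import Pool.Agent.Helper40.Nm.All

/-!
# Tori have split reduction after every tame extension of large degree

For an algebraic torus `T` of dimension `g` over a complete discretely valued field `K` with
algebraically closed residue field and for every tame extension `M` of `K` of degree at least
`3 ^ (g ^ 2)` the Neron lft model of `T_M` has split reduction.
-/

set_option autoImplicit false

open TensorProduct

namespace Pool.Agent.Results.MP_f619a5_ag.ToriTameBound

open Pool.Agent.Helper40.Nm

/-- `O` is a complete discrete valuation ring with algebraically closed residue field and fraction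
field `K`, `M` is a finite separable extension of `K` of degree prime to the characteristic
exponent of the residue field (so `M` is tamely ramified), `R` is the valuation ring of `M`, and
`A` is the Hopf algebra of a torus of dimension `g` over `K`.  If `[M : K] ≥ 3 ^ (g ^ 2)`, then
every Neron lft model of the torus over `M` has split reduction. -/
theorem result (g : ℕ) (O K R M A : Type) [CommRing O] [IsDomain O] [IsDiscreteValuationRing O]
    [IsAdicComplete (IsLocalRing.maximalIdeal O) O] [IsAlgClosed (IsLocalRing.ResidueField O)]
    [Field K] [Algebra O K] [IsFractionRing O K]
    [Field M] [Algebra K M] [Algebra O M] [IsScalarTower O K M] [FiniteDimensional K M]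
    [Algebra.IsSeparable K M]
    [CommRing R] [IsDomain R] [IsDiscreteValuationRing R] [Algebra O R] [Algebra R M]
    [IsScalarTower O R M] [IsIntegralClosure R O M]
    [CommRing A] [HopfAlgebra K A]
    (hA : IsTorus K A g)
    (htame : (ringExpChar (IsLocalRing.ResidueField O)).Coprime (Module.finrank K M))
    (hdeg : 3 ^ (g ^ 2) ≤ Module.finrank K M)
    (𝒢 : NeronLftModel R M (M ⊗[K] A)) :
    𝒢.SplitReduction :=
  main_all g O K R M A hA htame hdeg 𝒢

end Pool.Agent.Results.MP_f619a5_ag.ToriTameBound
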