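import Pool.Agent.Helper30.TmN.Defs
import Pool.Agent.Helper30.TmN.All

/-!
# Split reduction after large tame extensions, wild potentially good reduction

`K` is a complete discretely valued field with algebraically closed residue field of
characteristic exponent `p`, `N / K` is a finite Galois extension, `L` and `M` are intermediate
fields, `M / K` is tame and `L / K` may be wild, `[L : K] ≤ [M : K]`. Every commutative group
scheme `X` over `K` which behaves over `L` like a semi-abelian variety with semi-abelian reduction
has split reduction over `M`, if the elements of order `p` of the group of components over `M` are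
`p ^ (a + i - 1)`-th powers, where `p ^ a` is the largest power of `p` which divides `[N : K]` and
`p ^ i` kills the `p`-power torsion of the group of components over `L`. There is no condition on
the elements of order `p` if `a + i ≤ 1`, for instance if `X` has potentially good reduction over
`L` and `p ^ 2` does not divide `[N : K]`.
-/

set_option autoImplicit false

open CategoryTheory AlgebraicGeometry MonoidalCategory

namespace Pool.Agent.Results.MP_f619a5_ag.WildGoodReduction

open Pool.Agent.Helper50.Tm Pool.Agent.Helper30.TmN

/-- `O` is a complete discrete valuation ring with fraction field `K` and algebraically closed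
residue field of characteristic exponent `p`; `N / K` is a finite Galois extension; `L`, `M`
are intermediate fields, `M / K` is Galois of degree prime to `p`, so it is tamely ramified, and
`[L : K] ≤ [M : K]`; `RL`, `RM`, `RN` are the valuation rings of `L`, `M`, `N`. `X` is a
commutative group scheme over `K` with Neron lft models `𝒢L`, `𝒢M`, `𝒢N` over these rings.
Hypotheses:
* `hD`: the group of rational points of the identity component of the special fibre of `𝒢L` is
  `p`-divisible (this holds if `X` is a semi-abelian variety with semi-abelian reduction over `L`);
* `hC`: `p ^ i` kills the `p`-power torsion of the group of components of `𝒢L` (one can take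
  `i = 0` if `X` is an abelian variety with good reduction over `L`, since then there is only one
  component);
* `hR`: the group of components of `𝒢M` has at most `r` elements of order dividing `p`;
* `hsub`: `L` contains every subextension of `M / K` of degree at most `r!`;
* `hP`: every element of order dividing `p` of the group of components of `𝒢M` is a
  `p ^ (a + i - 1)`-th power, where `a` is the exponent of `p` in `[N : K]`; this is no condition
  if `a + i ≤ 1`;
* `hF`: the group of components of the special fibre of `𝒢M` is finitely generated.
Then `X` has split reduction over `M`. -/
theorem result (O K N : Type) [CommRing O] [IsDomain O] [IsDiscreteValuationRing O]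
    [IsAdicComplete (IsLocalRing.maximalIdeal O) O] [IsAlgClosed (IsLocalRing.ResidueField O)]
    [Field K] [Algebra O K] [IsFractionRing O K]
    [Field N] [Algebra K N] [Algebra O N] [IsScalarTower O K N]
    [FiniteDimensional K N] [IsGalois K N] (L M : IntermediateField K N) [IsGalois K M]
    (RL RM RN : Type)
    [CommRing RL] [IsDomain RL] [IsDiscreteValuationRing RL] [Algebra O RL] [Algebra RL L]
    [IsScalarTower O RL L] [IsIntegralClosure RL O L]
    [CommRing RM] [IsDomain RM] [IsDiscreteValuationRing RM] [Algebra O RM] [Algebra RM M]
    [IsScalarTower O RM M] [IsIntegralClosure RM O M]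
    [CommRing RN] [IsDomain RN] [IsDiscreteValuationRing RN] [Algebra O RN] [Algebra RN N]
    [IsScalarTower O RN N] [IsIntegralClosure RN O N]
    (X : Over (Spec (CommRingCat.of K))) [GrpObj X] [IsCommMonObj X]
    (𝒢L : NeronModel K RL L X) (𝒢M : NeronModel K RM M X) (𝒢N : NeronModel K RN N X)
    (p r i : ℕ) (hp : ringExpChar (IsLocalRing.ResidueField O) = p)
    (htame : p.Coprime (Module.finrank K M))
    (hdeg : Module.finrank K L ≤ Module.finrank K M)
    (hD : IdDivisible 𝒢L.G p) (hC : TorsionKilled 𝒢L.G p i) (hR : TorsionCard 𝒢M.G p r)
    (hsub : ∀ K' : IntermediateField K N, K' ≤ M → Module.finrank K K' ≤ r.factorial → K' ≤ L)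
    (hP : TorsionPow 𝒢M.G p (p ^ (padicValNat p (Module.finrank K N) + i - 1)))
    (hF : FGComponents 𝒢M.G) :
    SplitReduction 𝒢M.G :=
  (main O K N L M RL RM RN X 𝒢L 𝒢M 𝒢N p r i hp htame hdeg hsub hD (fun b hb => hC b _ hb)
    hR).2 hP hF

end Pool.Agent.Results.MP_f619a5_ag.WildGoodReduction
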