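import Pool.Agent.Helper50.Tm.Defs2
import Pool.Agent.Helper50.Tm.All2

/-!
# Split reduction after large tame extensions, for wild potentially multiplicative reduction

`K` is a complete discretely valued field with algebraically closed residue field of
characteristic exponent `p`, `N / K` is a finite Galois extension and `L`, `M`, `N1` are Galois
subextensions; `N1` contains `M`, has degree prime to `p` over `K` and `[N : N1]` is a power of
`p`; `[N : L]` is prime to `p` and `[L : K] ≤ [M : K]`. So `M / K` is tame and `L / K` may be
wild. Every commutative group scheme `X` over `K` which behaves over `L` like a semi-abelian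
variety with semi-abelian reduction and whose group of points over `N` reducing to the unit is of
multiplicative type has split reduction over `M`.
-/

set_option autoImplicit false

open CategoryTheory AlgebraicGeometry MonoidalCategory

namespace Pool.Agent.Results.MP_f619a5_ag.WildMultiplicative

open Pool.Agent.Helper50.Tm

/-- `O` is a complete discrete valuation ring with fraction field `K` and algebraically closed
residue field of characteristic exponent `p`; `N / K` is a finite Galois extension; `L`, `M`, `N1`
are intermediate fields, Galois over `K`, with `M ≤ N1`, `[N : N1] = p ^ a`, `[N1 : K]` and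
`[N : L]` prime to `p`, `[L : K] ≤ [M : K]`; `RL`, `RM`, `RN` are the valuation rings of
`L`, `M`, `N`. `X` is a commutative group scheme over `K` with Neron lft models `𝒢L`, `𝒢M`,
`𝒢N` over these rings.
Hypotheses `hD`, `hT`, `hH` (they hold if `X` is a semi-abelian variety with semi-abelian
reduction over `L`): the group of rational points of the identity component of the special fibre
of `𝒢N` is `p`-divisible with finite `p`-torsion; a point of `X` over `L` which reduces to
the unit in the special fibre of `𝒢N` reduces to the unit in the special fibre of `𝒢L`; every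
rational point of `p`-power order of the special fibre of `𝒢N` is the reduction of a point of
`X` over `L`. The group of components of the special fibre of `𝒢M` is finitely generated (`hF`).
The kernel of the reduction over `N` is of multiplicative type (`hMT`).
Then `X` has split reduction over `M`. -/
theorem result (O K N : Type) [CommRing O] [IsDomain O] [IsDiscreteValuationRing O]
    [IsAdicComplete (IsLocalRing.maximalIdeal O) O] [IsAlgClosed (IsLocalRing.ResidueField O)]
    [Field K] [Algebra O K] [IsFractionRing O K]
    [Field N] [Algebra K N] [Algebra O N] [IsScalarTower O K N]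
    [FiniteDimensional K N] [IsGalois K N] (L M N1 : IntermediateField K N)
    [IsGalois K L] [IsGalois K M] [IsGalois K N1]
    (RL RM RN : Type)
    [CommRing RL] [IsDomain RL] [IsDiscreteValuationRing RL] [Algebra O RL] [Algebra RL L]
    [IsScalarTower O RL L] [IsIntegralClosure RL O L]
    [CommRing RM] [IsDomain RM] [IsDiscreteValuationRing RM] [Algebra O RM] [Algebra RM M]
    [IsScalarTower O RM M] [IsIntegralClosure RM O M]
    [CommRing RN] [IsDomain RN] [IsDiscreteValuationRing RN] [Algebra O RN] [Algebra RN N]
    [IsScalarTower O RN N] [IsIntegralClosure RN O N]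
    (X : Over (Spec (CommRingCat.of K))) [GrpObj X] [IsCommMonObj X]
    (𝒢L : NeronModel K RL L X) (𝒢M : NeronModel K RM M X) (𝒢N : NeronModel K RN N X)
    (p a : ℕ) (hp : ringExpChar (IsLocalRing.ResidueField O) = p)
    (hMN : M ≤ N1) (hN1 : Module.finrank N1 N = p ^ a)
    (hKN1 : p.Coprime (Module.finrank K N1)) (hLN : p.Coprime (Module.finrank L N))
    (hdeg : Module.finrank K L ≤ Module.finrank K M)
    (hD : DivFin 𝒢N.G p)
    (hT : ∀ y : Pts X L, 𝒢N.Reduces (y.map (IsScalarTower.toAlgHom K L N)) 1 → 𝒢L.Reduces y 1)
    (hH : ∀ (b : Pts 𝒢N.G (IsLocalRing.ResidueField RN)) (j : ℕ), b ^ p ^ j = 1 →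
      ∃ y : Pts X L, 𝒢N.Reduces (y.map (IsScalarTower.toAlgHom K L N)) b)
    (hF : FGComponents 𝒢M.G) (hMT : MultType L N1 𝒢N) :
    SplitReduction 𝒢M.G :=
  wild_all O K N L M N1 RL RM RN X 𝒢L 𝒢M 𝒢N p a hp hMN hN1 hKN1 hLN hdeg hD hT hH hF hMT

end Pool.Agent.Results.MP_f619a5_ag.WildMultiplicative
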